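import Pool.Agent.H741.RS.Stm

/-! Powers of linear forms span the homogeneous polynomials. -/

set_option autoImplicit false

namespace Pool.Agent.H296.RS

open Pool.Agent.H741.RS Finset
open scoped ComplexConjugate

/-- the span of the powers of the linear forms -/
noncomputable def W (n j : ℕ) : Submodule ℂ (V n → ℂ) :=
  Submodule.span ℂ (Set.range fun w : V n => fun z : V n => hp z w ^ j)

theorem hp_conj {n : ℕ} (t : Fin n → ℂ) (z : V n) :
    hp z (WithLp.toLp 2 fun i => conj (t i)) = ∑ i, t i * z i := by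
  unfold hp
  rw [PiLp.inner_apply]
  refine sum_congr rfl fun i _ => ?_
  simp [mul_comm]

theorem lin_pow {n : ℕ} (j : ℕ) (t : Fin n → ℂ) : (fun z : V n => (∑ i, t i * z i) ^ j) ∈ W n j := by
  have h : (fun z : V n => (∑ i, t i * z i) ^ j) =
      fun z : V n => hp z (WithLp.toLp 2 fun i => conj (t i)) ^ j := by
    funext z
    rw [hp_conj]
  rw [h]
  exact Submodule.subset_span ⟨_, rfl⟩

/-- monomials as functions -/
def mo {n : ℕ} (k : Fin n → ℕ) : V n → ℂ := fun z => ∏ i, z i ^ k i

theorem expand {n : ℕ} (j : ℕ) (t : Fin n → ℂ) : (fun z : V n => (∑ i, t i * z i) ^ j) =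
    ∑ k ∈ piAntidiag univ j, ((Nat.multinomial univ k : ℂ) * ∏ i, t i ^ k i) • mo k := by
  funext z
  rw [sum_pow_eq_sum_piAntidiag, Finset.sum_apply]
  refine sum_congr rfl fun k _ => ?_
  rw [Pi.smul_apply, smul_eq_mul]
  unfold mo
  rw [mul_assoc, ← prod_mul_distrib]
  congr 1
  exact prod_congr rfl fun i _ => by rw [mul_pow]

theorem mo_mem {n j : ℕ} (k : Fin n → ℕ) (hk : k ∈ piAntidiag univ j) : mo k ∈ W n j := by
  by_contra hcon
  obtain ⟨F, hF, hW⟩ := Submodule.exists_le_ker_of_notMem hcon
  have h0 : (∑ k ∈ piAntidiag (univ : Finset (Fin n)) j,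
      MvPolynomial.monomial (Finsupp.equivFunOnFinite.symm k) ((Nat.multinomial univ k : ℂ) * F (mo k))) = 0 := by
    apply MvPolynomial.funext
    intro t
    rw [map_zero, map_sum]
    have h1 := hW (lin_pow j t)
    rw [LinearMap.mem_ker, expand, map_sum] at h1
    rw [← h1]
    refine sum_congr rfl fun k _ => ?_
    rw [MvPolynomial.eval_monomial, map_smul, smul_eq_mul, Finsupp.prod_fintype _ _ (fun i => pow_zero _)]
    simp only [Finsupp.equivFunOnFinite_symm_apply_apply]
    ring
  have h1 := congrArg (MvPolynomial.coeff (Finsupp.equivFunOnFinite.symm k)) h0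
  rw [MvPolynomial.coeff_sum, Finset.sum_eq_single k, MvPolynomial.coeff_monomial, if_pos rfl,
    MvPolynomial.coeff_zero] at h1
  · rcases mul_eq_zero.mp h1 with h2 | h2
    · have := Nat.multinomial_pos univ k
      have h3 : Nat.multinomial univ k = 0 := by exact_mod_cast h2
      omega
    · exact hF h2
  · intro b _ hb
    rw [MvPolynomial.coeff_monomial, if_neg]
    intro h
    exact hb (Finsupp.equivFunOnFinite.symm.injective h)
  · intro h
    exact absurd hk h

theorem ev_mem {n j : ℕ} (P : MvPolynomial (Fin n) ℂ) (hP : P.IsHomogeneous j) :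
    (fun z : V n => ev P z) ∈ W n j := by
  have h : (fun z : V n => ev P z) = ∑ d ∈ P.support, P.coeff d • mo (fun i => d i) := by
    funext z
    unfold ev
    rw [MvPolynomial.eval_eq', Finset.sum_apply]
    refine sum_congr rfl fun d _ => ?_
    rw [Pi.smul_apply, smul_eq_mul]
    rfl
  rw [h]
  refine Submodule.sum_mem _ fun d hd => Submodule.smul_mem _ _ (mo_mem _ ?_)
  rw [mem_piAntidiag]
  refine ⟨?_, fun i _ => mem_univ i⟩
  have h1 : (Finsupp.weight (fun _ : Fin n => 1)) d = j := hP (MvPolynomial.mem_support_iff.mp hd)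
  rw [← Finsupp.degree_eq_weight_one] at h1
  rw [← h1]
  exact (Finsupp.degree_eq_sum d).symm

theorem t_POW : S_POW := by
  intro n j P hP
  have h := ev_mem P hP
  unfold W at h
  rw [Finsupp.mem_span_range_iff_exists_finsupp] at h
  obtain ⟨c, hc⟩ := h
  refine ⟨c.support.card, fun i => (c.support.equivFin.symm i : V n), fun i => c (c.support.equivFin.symm i : V n),
    fun z => ?_⟩
  have h1 := congrFun hc z
  rw [← h1, Finsupp.sum, Finset.sum_apply]
  rw [← Finset.sum_coe_sort c.support]
  rw [← Equiv.sum_comp c.support.equivFin.symm]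
  refine sum_congr rfl fun i _ => ?_
  rw [Pi.smul_apply, smul_eq_mul]

end Pool.Agent.H296.RS
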